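import Mathlib
import Pool.Agent.H522R2.Circuit

namespace Pool.Agent.Results.MP_e72dc0_lc.DepthTradeoff

open Pool.Agent.H522R2
open Pool.Agent.H522R2.Circuit

section

variable {F : Type*} [Field F] {m : ℕ}

/-- the variables: the entries `a_{ik}` (left summand) and `b_{kj}` (right summand) -/
abbrev Vars (m : ℕ) : Type := (Fin m × Fin m) ⊕ (Fin m × Fin m)

/-- The entry `c_{ij} = ∑ k, a_{ik} b_{kj}` of the product of two generic `m × m` matrices. -/
noncomputable def entry (F : Type*) [Field F] (m : ℕ) (i j : Fin m) : MvPolynomial (Vars m) F :=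
  ∑ k : Fin m, MvPolynomial.X (Sum.inl (i, k)) * MvPolynomial.X (Sum.inr (k, j))

/-- the matrix whose row `i` is `a` and whose other rows are zero -/
def rowMat (i : Fin m) (a : Fin m → F) : Fin m × Fin m → F :=
  fun p => if p.1 = i then a p.2 else 0

/-- rows of the first matrix that matter for the linear part computed at a node -/
noncomputable def rowsT (C : Circuit F (Vars m)) (k : Fin C.nodes) : Finset (Fin m) := by
  classical
  exact Finset.univ.filter (fun i => ∃ a : Fin m → F, jA C k (rowMat i a) ≠ 0)

theorem mem_rowsT (C : Circuit F (Vars m)) (k : Fin C.nodes) (i : Fin m) :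
    i ∈ rowsT C k ↔ ∃ a : Fin m → F, jA C k (rowMat i a) ≠ 0 := by
  simp [rowsT]

theorem two_pow_aux {a b x y : ℕ} (hx : x ≤ 2 ^ a) (hy : y ≤ 2 ^ b) :
    x + y ≤ 2 ^ (max a b + 1) := by
  have h1 : 2 ^ a ≤ 2 ^ (max a b) := Nat.pow_le_pow_right (by norm_num) (le_max_left _ _)
  have h2 : 2 ^ b ≤ 2 ^ (max a b) := Nat.pow_le_pow_right (by norm_num) (le_max_right _ _)
  rw [pow_succ]; omega

theorem card_rowsT (C : Circuit F (Vars m)) (k : Fin C.nodes) :
    (rowsT C k).card ≤ 2 ^ C.depth k := by
  classical
  obtain ⟨k, hk⟩ := k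
  induction k using Nat.strong_induction_on with
  | _ k ih =>
    cases h : C.gate ⟨k, hk⟩ with
    | var x =>
      have hd : C.depth ⟨k, hk⟩ = 0 := by rw [depth, h]
      rw [hd]
      cases x with
      | inl x =>
        have : rowsT C ⟨k, hk⟩ ⊆ {x.1} := by
          intro i hi
          rw [mem_rowsT] at hi
          obtain ⟨a, ha⟩ := hi
          rw [jA, h] at ha
          simp only [LinearMap.proj_apply, rowMat] at ha
          simp only [Finset.mem_singleton]
          by_contra hne
          exact ha (if_neg (fun h' => hne h'.symm))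
        calc _ ≤ _ := Finset.card_le_card this
          _ = 2 ^ 0 := by simp
      | inr x =>
        have : rowsT C ⟨k, hk⟩ = ∅ := by
          apply Finset.eq_empty_of_forall_notMem
          intro i hi
          rw [mem_rowsT] at hi
          obtain ⟨a, ha⟩ := hi
          rw [jA, h] at ha
          exact ha rfl
        rw [this]; simp
    | const c =>
      have hd : C.depth ⟨k, hk⟩ = 0 := by rw [depth, h]
      rw [hd]
      have : rowsT C ⟨k, hk⟩ = ∅ := by
        apply Finset.eq_empty_of_forall_notMem
        intro i hi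
        rw [mem_rowsT] at hi
        obtain ⟨a, ha⟩ := hi
        rw [jA, h] at ha
        exact ha rfl
      rw [this]; simp
    | add i j =>
      have h1 := ih i i.2 (i.2.trans hk)
      have h2 := ih j j.2 (j.2.trans hk)
      have hd : C.depth ⟨k, hk⟩ = max (C.depth (C.up ⟨k, hk⟩ i)) (C.depth (C.up ⟨k, hk⟩ j)) + 1 := by
        rw [depth, h]
      have hsub : rowsT C ⟨k, hk⟩ ⊆ rowsT C (C.up ⟨k, hk⟩ i) ∪ rowsT C (C.up ⟨k, hk⟩ j) := by
        intro r hr
        rw [mem_rowsT] at hr
        obtain ⟨a, ha⟩ := hr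
        rw [jA, h] at ha
        simp only [LinearMap.add_apply] at ha
        rw [Finset.mem_union, mem_rowsT, mem_rowsT]
        by_contra hcon
        push Not at hcon
        exact ha (by rw [hcon.1 a, hcon.2 a, add_zero])
      rw [hd]
      calc _ ≤ _ := Finset.card_le_card hsub
        _ ≤ _ := Finset.card_union_le _ _
        _ ≤ _ := two_pow_aux h1 h2
    | mul i j =>
      have h1 := ih i i.2 (i.2.trans hk)
      have h2 := ih j j.2 (j.2.trans hk)
      have hd : C.depth ⟨k, hk⟩ = max (C.depth (C.up ⟨k, hk⟩ i)) (C.depth (C.up ⟨k, hk⟩ j)) + 1 := by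
        rw [depth, h]
      have hsub : rowsT C ⟨k, hk⟩ ⊆ rowsT C (C.up ⟨k, hk⟩ i) ∪ rowsT C (C.up ⟨k, hk⟩ j) := by
        intro r hr
        rw [mem_rowsT] at hr
        obtain ⟨a, ha⟩ := hr
        rw [jA, h] at ha
        simp only [LinearMap.add_apply, LinearMap.smul_apply, smul_eq_mul] at ha
        rw [Finset.mem_union, mem_rowsT, mem_rowsT]
        by_contra hcon
        push Not at hcon
        exact ha (by rw [hcon.1 a, hcon.2 a, mul_zero, mul_zero, add_zero])
      rw [hd]
      calc _ ≤ _ := Finset.card_le_card hsub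
        _ ≤ _ := Finset.card_union_le _ _
        _ ≤ _ := two_pow_aux h1 h2

/-- multiplication gates of depth `> t` below a node, along paths through the unrolled circuit -/
noncomputable def heavy (C : Circuit F (Vars m)) (t : ℕ) (k : Fin C.nodes) :
    Finset (Fin C.nodes) := by
  classical
  exact match C.gate k with
  | .var _ => ∅
  | .const _ => ∅
  | .add i j => heavy C t (C.up k i) ∪ heavy C t (C.up k j)
  | .mul i j => heavy C t (C.up k i) ∪ heavy C t (C.up k j) ∪
      (if t < C.depth k then {k} else ∅)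
termination_by (k : ℕ)
decreasing_by all_goals simp [up]

theorem card_heavy (C : Circuit F (Vars m)) (t : ℕ) (k : Fin C.nodes) :
    (heavy C t k).card + 1 ≤ 2 ^ (C.depth k - t) := by
  classical
  obtain ⟨k, hk⟩ := k
  induction k using Nat.strong_induction_on with
  | _ k ih =>
    cases h : C.gate ⟨k, hk⟩ with
    | var x =>
      rw [heavy, h]; simpa using Nat.one_le_two_pow
    | const c =>
      rw [heavy, h]; simpa using Nat.one_le_two_pow
    | add i j =>
      have h1 := ih i i.2 (i.2.trans hk)
      have h2 := ih j j.2 (j.2.trans hk)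
      have hd : C.depth ⟨k, hk⟩ = max (C.depth (C.up ⟨k, hk⟩ i)) (C.depth (C.up ⟨k, hk⟩ j)) + 1 := by
        rw [depth, h]
      rw [hd, heavy, h]
      simp only [up] at *
      set d1 := C.depth ⟨(i : ℕ), i.2.trans hk⟩
      set d2 := C.depth ⟨(j : ℕ), j.2.trans hk⟩
      have hu := Finset.card_union_le (heavy C t ⟨(i : ℕ), i.2.trans hk⟩)
        (heavy C t ⟨(j : ℕ), j.2.trans hk⟩)
      rcases Nat.lt_or_ge t (max d1 d2 + 1) with hlt | hge
      · have e : max d1 d2 + 1 - t = (max d1 d2 - t) + 1 := by omega
        have g1 : 2 ^ (d1 - t) ≤ 2 ^ (max d1 d2 - t) :=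
          Nat.pow_le_pow_right (by norm_num) (by omega)
        have g2 : 2 ^ (d2 - t) ≤ 2 ^ (max d1 d2 - t) :=
          Nat.pow_le_pow_right (by norm_num) (by omega)
        rw [e, pow_succ]; omega
      · have e : max d1 d2 + 1 - t = 0 := by omega
        have e1 : d1 - t = 0 := by omega
        have e2 : d2 - t = 0 := by omega
        rw [e1] at h1; rw [e2] at h2; rw [e]
        simp at h1 h2
        simp [h1, h2]
    | mul i j =>
      have h1 := ih i i.2 (i.2.trans hk)
      have h2 := ih j j.2 (j.2.trans hk)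
      have hd : C.depth ⟨k, hk⟩ = max (C.depth (C.up ⟨k, hk⟩ i)) (C.depth (C.up ⟨k, hk⟩ j)) + 1 := by
        rw [depth, h]
      rw [heavy, h]
      simp only [up] at *
      rw [hd]
      set d1 := C.depth ⟨(i : ℕ), i.2.trans hk⟩
      set d2 := C.depth ⟨(j : ℕ), j.2.trans hk⟩
      have hu := Finset.card_union_le (heavy C t ⟨(i : ℕ), i.2.trans hk⟩)
        (heavy C t ⟨(j : ℕ), j.2.trans hk⟩)
      rcases Nat.lt_or_ge t (max d1 d2 + 1) with hlt | hge
      · have e : max d1 d2 + 1 - t = (max d1 d2 - t) + 1 := by omega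
        have g1 : 2 ^ (d1 - t) ≤ 2 ^ (max d1 d2 - t) :=
          Nat.pow_le_pow_right (by norm_num) (by omega)
        have g2 : 2 ^ (d2 - t) ≤ 2 ^ (max d1 d2 - t) :=
          Nat.pow_le_pow_right (by norm_num) (by omega)
        rw [if_pos hlt]
        have hu2 := Finset.card_union_le (heavy C t ⟨(i : ℕ), i.2.trans hk⟩ ∪
          heavy C t ⟨(j : ℕ), j.2.trans hk⟩) {(⟨k, hk⟩ : Fin C.nodes)}
        rw [Finset.card_singleton] at hu2
        rw [e, pow_succ]; omega
      · have e : max d1 d2 + 1 - t = 0 := by omega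
        have e1 : d1 - t = 0 := by omega
        have e2 : d2 - t = 0 := by omega
        rw [e1] at h1; rw [e2] at h2; rw [e]
        simp at h1 h2
        rw [if_neg (by omega)]
        simp [h1, h2]

/-- first input of a multiplication gate -/
def lft (C : Circuit F (Vars m)) (k : Fin C.nodes) : Fin C.nodes :=
  match C.gate k with
  | .mul i _ => C.up k i
  | _ => k

/-- second input of a multiplication gate -/
def rgt (C : Circuit F (Vars m)) (k : Fin C.nodes) : Fin C.nodes :=
  match C.gate k with
  | .mul _ j => C.up k j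
  | _ => k

theorem jQ_eq_zero (C : Circuit F (Vars m)) (t : ℕ) (a b : Fin m × Fin m → F) (k : Fin C.nodes)
    (H : ∀ g : Fin C.nodes, (∃ i j, C.gate g = Gate.mul i j) →
      (g ∈ heavy C t k ∨ C.depth g ≤ t) →
      jA C (lft C g) a * jB C (rgt C g) b + jA C (rgt C g) a * jB C (lft C g) b = 0) :
    jQ C a b k = 0 := by
  classical
  obtain ⟨k, hk⟩ := k
  induction k using Nat.strong_induction_on with
  | _ k ih =>
    cases h : C.gate ⟨k, hk⟩ with
    | var x => rw [jQ, h]
    | const c => rw [jQ, h]
    | add i j =>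
      rw [jQ, h]
      have h1 := ih i i.2 (i.2.trans hk) (by
        intro g hg hg'
        apply H g hg
        rcases hg' with hg' | hg'
        · left; rw [heavy, h]; exact Finset.mem_union_left _ hg'
        · right; exact hg')
      have h2 := ih j j.2 (j.2.trans hk) (by
        intro g hg hg'
        apply H g hg
        rcases hg' with hg' | hg'
        · left; rw [heavy, h]; exact Finset.mem_union_right _ hg'
        · right; exact hg')
      simp only [up]
      rw [h1, h2, add_zero]
    | mul i j =>
      have h1 := ih i i.2 (i.2.trans hk) (by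
        intro g hg hg'
        apply H g hg
        rcases hg' with hg' | hg'
        · left; rw [heavy, h]
          exact Finset.mem_union_left _ (Finset.mem_union_left _ hg')
        · right; exact hg')
      have h2 := ih j j.2 (j.2.trans hk) (by
        intro g hg hg'
        apply H g hg
        rcases hg' with hg' | hg'
        · left; rw [heavy, h]
          exact Finset.mem_union_left _ (Finset.mem_union_right _ hg')
        · right; exact hg')
      have h3 := H ⟨k, hk⟩ ⟨i, j, h⟩ (by
        by_cases hd : t < C.depth ⟨k, hk⟩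
        · left; rw [heavy, h]
          apply Finset.mem_union_right
          rw [if_pos hd]; exact Finset.mem_singleton_self _
        · right; omega)
      have hl : lft C ⟨k, hk⟩ = C.up ⟨k, hk⟩ i := by rw [lft, h]
      have hr : rgt C ⟨k, hk⟩ = C.up ⟨k, hk⟩ j := by rw [rgt, h]
      rw [hl, hr] at h3
      rw [jQ, h]
      simp only [h3]
      simp only [up]
      rw [h1, h2]; ring

/-- nonscalar multiplication gates of depth at most `t` -/
noncomputable def light (C : Circuit F (Vars m)) (t : ℕ) : Finset (Fin C.nodes) := by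
  classical
  exact Finset.univ.filter (fun g => C.IsNonscalar g ∧ C.depth g ≤ t)

theorem card_light_le (C : Circuit F (Vars m)) (t : ℕ) :
    (light C t).card ≤ C.nonscalarCount := by
  classical
  rw [nonscalarCount, Nat.card_eq_fintype_card, Fintype.card_subtype]
  apply Finset.card_le_card
  intro g hg
  simp only [light, Finset.mem_filter, Finset.mem_univ, true_and] at hg ⊢
  exact hg.1

theorem light_zero (C : Circuit F (Vars m)) : light C 0 = ∅ := by
  apply Finset.eq_empty_of_forall_notMem
  intro g hg
  simp only [light, Finset.mem_filter, Finset.mem_univ, true_and] at hg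
  obtain ⟨⟨i, j, h, _⟩, hd⟩ := hg
  rw [depth, h] at hd
  simp at hd

/-- the linear conditions imposed on the second matrix -/
noncomputable def cond (C : Circuit F (Vars m)) (s : Fin C.nodes × Bool) :
    (Fin m × Fin m → F) →ₗ[F] F :=
  if s.2 then jB C (lft C s.1) else jB C (rgt C s.1)

/-- index set of the conditions attached to row `i` -/
noncomputable def condSet (C : Circuit F (Vars m)) (t : ℕ) (out : Fin m → Fin m → Fin C.nodes)
    (i : Fin m) : Finset (Fin C.nodes × Bool) := by
  classical
  exact ((Finset.univ.biUnion (fun j => heavy C t (out i j))) ×ˢ Finset.univ) ∪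
    ((light C t) ×ˢ Finset.univ).filter
      (fun s => if s.2 then i ∈ rowsT C (rgt C s.1) else i ∈ rowsT C (lft C s.1))

theorem card_rows_children (C : Circuit F (Vars m)) (t : ℕ) (g : Fin C.nodes)
    (hg : g ∈ light C t) :
    (rowsT C (lft C g)).card + (rowsT C (rgt C g)).card ≤ 2 ^ t := by
  simp only [light, Finset.mem_filter, Finset.mem_univ, true_and] at hg
  obtain ⟨⟨i, j, h, _⟩, hd⟩ := hg
  have hl : lft C g = C.up g i := by rw [lft, h]
  have hr : rgt C g = C.up g j := by rw [rgt, h]
  rw [hl, hr]
  have h1 := card_rowsT C (C.up g i)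
  have h2 := card_rowsT C (C.up g j)
  have h3 := two_pow_aux h1 h2
  have hd' : C.depth g = max (C.depth (C.up g i)) (C.depth (C.up g j)) + 1 := by
    rw [depth, h]
  rw [← hd'] at h3
  exact h3.trans (Nat.pow_le_pow_right (by norm_num) hd)

theorem card_condSet (C : Circuit F (Vars m)) (t : ℕ) (out : Fin m → Fin m → Fin C.nodes)
    (i : Fin m) :
    (condSet C t out i).card ≤ 2 * (∑ j, (heavy C t (out i j)).card) +
      ∑ g ∈ light C t, ((if i ∈ rowsT C (lft C g) then 1 else 0) +
        (if i ∈ rowsT C (rgt C g) then 1 else 0)) := by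
  classical
  unfold condSet
  refine (Finset.card_union_le _ _).trans ?_
  apply Nat.add_le_add
  · rw [Finset.card_product, mul_comm]
    have : (Finset.univ : Finset Bool).card = 2 := rfl
    rw [this]
    exact Nat.mul_le_mul_left _ Finset.card_biUnion_le
  · rw [Finset.card_filter, Finset.sum_product]
    apply le_of_eq
    apply Finset.sum_congr rfl
    intro g _
    rw [Fintype.sum_bool]
    simp only [if_true, Bool.false_eq_true, if_false]
    rw [add_comm]

theorem m_sq_le (C : Circuit F (Vars m)) (t : ℕ) (out : Fin m → Fin m → Fin C.nodes)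
    (hout : ∀ i j, C.poly (out i j) = entry F m i j) (i : Fin m) :
    m * m ≤ (condSet C t out i).card := by
  classical
  -- the linear map collecting all the conditions
  let Φ : (Fin m × Fin m → F) →ₗ[F] ((condSet C t out i) → F) :=
    LinearMap.pi (fun s => cond C s.1)
  have hinj : Function.Injective Φ := by
    rw [← LinearMap.ker_eq_bot, LinearMap.ker_eq_bot']
    intro b hb
    have hb' : ∀ s ∈ condSet C t out i, cond C s b = 0 := by
      intro s hs
      have := congrFun hb ⟨s, hs⟩
      simpa [Φ] using this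
    have key : ∀ (a : Fin m → F) (j : Fin m), jQ C (rowMat i a) b (out i j) = 0 := by
      intro a j
      apply jQ_eq_zero C t
      intro g hgm hg
      rcases hg with hg | hg
      · -- heavy gate: both conditions are imposed
        have e1 : cond C (g, true) b = 0 := hb' _ (by
          unfold condSet
          apply Finset.mem_union_left
          rw [Finset.mem_product]
          exact ⟨Finset.mem_biUnion.2 ⟨j, Finset.mem_univ _, hg⟩, Finset.mem_univ _⟩)
        have e2 : cond C (g, false) b = 0 := hb' _ (by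
          unfold condSet
          apply Finset.mem_union_left
          rw [Finset.mem_product]
          exact ⟨Finset.mem_biUnion.2 ⟨j, Finset.mem_univ _, hg⟩, Finset.mem_univ _⟩)
        simp only [cond, if_true, Bool.false_eq_true, if_false] at e1 e2
        rw [e1, e2]; ring
      · by_cases hns : C.IsNonscalar g
        swap
        · obtain ⟨r, s, hrs⟩ := hgm
          have hl : lft C g = C.up g r := by rw [lft, hrs]
          have hr : rgt C g = C.up g s := by rw [rgt, hrs]
          rw [hl, hr]
          by_cases hc : ∃ c : F, C.poly (C.up g r) = MvPolynomial.C c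
          · obtain ⟨c, hc⟩ := hc
            rw [jA_eq_zero_of_const C _ c hc, jB_eq_zero_of_const C _ c hc]; ring
          · by_cases hc' : ∃ c : F, C.poly (C.up g s) = MvPolynomial.C c
            · obtain ⟨c, hc'⟩ := hc'
              rw [jA_eq_zero_of_const C _ c hc', jB_eq_zero_of_const C _ c hc']; ring
            · exact absurd ⟨r, s, hrs, fun c h => hc ⟨c, h⟩, fun c h => hc' ⟨c, h⟩⟩ hns
        have hgl : g ∈ light C t := by
          simp only [light, Finset.mem_filter, Finset.mem_univ, true_and]
          exact ⟨hns, hg⟩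
        have e1 : jA C (lft C g) (rowMat i a) * jB C (rgt C g) b = 0 := by
          by_cases hi : i ∈ rowsT C (lft C g)
          · have e : cond C (g, false) b = 0 := hb' _ (by
              unfold condSet
              apply Finset.mem_union_right
              rw [Finset.mem_filter, Finset.mem_product]
              exact ⟨⟨hgl, Finset.mem_univ _⟩, by simpa using hi⟩)
            simp only [cond, Bool.false_eq_true, if_false] at e
            rw [e, mul_zero]
          · rw [mem_rowsT] at hi
            push Not at hi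
            rw [hi a, zero_mul]
        have e2 : jA C (rgt C g) (rowMat i a) * jB C (lft C g) b = 0 := by
          by_cases hi : i ∈ rowsT C (rgt C g)
          · have e : cond C (g, true) b = 0 := hb' _ (by
              unfold condSet
              apply Finset.mem_union_right
              rw [Finset.mem_filter, Finset.mem_product]
              exact ⟨⟨hgl, Finset.mem_univ _⟩, by simpa using hi⟩)
            simp only [cond, if_true] at e
            rw [e, mul_zero]
          · rw [mem_rowsT] at hi
            push Not at hi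
            rw [hi a, zero_mul]
        rw [e1, e2, add_zero]
    -- the bilinear part of the output is the product of the matrices
    have hval : ∀ (a : Fin m → F) (j : Fin m),
        jQ C (rowMat i a) b (out i j) = ∑ k, a k * b (k, j) := by
      intro a j
      rw [← (ev_poly C (rowMat i a) b (out i j)).2.2.2, hout, entry]
      simp [ev, rowMat, TrivSqZeroExt.snd_sum]
    funext p
    obtain ⟨k, j⟩ := p
    have h1 := key (Pi.single k 1) j
    rw [hval] at h1
    simpa [Pi.single_apply] using h1
  have := LinearMap.finrank_le_finrank_of_injective hinj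
  simpa using this

/-- The basic inequality. -/
theorem main_ineq (C : Circuit F (Vars m)) (D t : ℕ) (out : Fin m → Fin m → Fin C.nodes)
    (hout : ∀ i j, C.poly (out i j) = entry F m i j) (hD : ∀ i j, C.depth (out i j) ≤ D) :
    m ^ 3 + 2 * m ^ 2 ≤ 2 * m ^ 2 * 2 ^ (D - t) + (light C t).card * 2 ^ t := by
  classical
  have h1 : ∀ i : Fin m, m * m + 2 * m ≤ 2 * m * 2 ^ (D - t) +
      ∑ g ∈ light C t, ((if i ∈ rowsT C (lft C g) then 1 else 0) +
        (if i ∈ rowsT C (rgt C g) then 1 else 0)) := by
    intro i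
    have h2 := m_sq_le C t out hout i
    have h3 := card_condSet C t out i
    have h4 : ∑ j, ((heavy C t (out i j)).card + 1) ≤ ∑ _j : Fin m, 2 ^ (D - t) := by
      apply Finset.sum_le_sum
      intro j _
      exact (card_heavy C t (out i j)).trans
        (Nat.pow_le_pow_right (by norm_num) (Nat.sub_le_sub_right (hD i j) t))
    rw [Finset.sum_add_distrib] at h4
    simp only [Finset.sum_const, Finset.card_univ, Fintype.card_fin, smul_eq_mul, mul_one] at h4
    nlinarith
  have h5 : ∑ i : Fin m, (m * m + 2 * m) ≤ ∑ i : Fin m, (2 * m * 2 ^ (D - t) +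
      ∑ g ∈ light C t, ((if i ∈ rowsT C (lft C g) then 1 else 0) +
        (if i ∈ rowsT C (rgt C g) then 1 else 0))) := Finset.sum_le_sum (fun i _ => h1 i)
  have h5' : ∑ i : Fin m, (2 * m * 2 ^ (D - t) +
      ∑ g ∈ light C t, ((if i ∈ rowsT C (lft C g) then 1 else 0) +
        (if i ∈ rowsT C (rgt C g) then 1 else 0))) = m * (2 * m * 2 ^ (D - t)) +
      ∑ g ∈ light C t, ∑ i : Fin m, ((if i ∈ rowsT C (lft C g) then 1 else 0) +
        (if i ∈ rowsT C (rgt C g) then 1 else 0)) := by
    rw [Finset.sum_add_distrib, Finset.sum_comm]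
    simp only [Finset.sum_const, Finset.card_univ, Fintype.card_fin, smul_eq_mul]
  rw [h5'] at h5
  have h6 : ∑ g ∈ light C t, ∑ i : Fin m, ((if i ∈ rowsT C (lft C g) then 1 else 0) +
        (if i ∈ rowsT C (rgt C g) then 1 else 0)) ≤ ∑ _g ∈ light C t, 2 ^ t := by
    apply Finset.sum_le_sum
    intro g hg
    have := card_rows_children C t g hg
    rw [Finset.sum_add_distrib]
    simpa using this
  simp only [Finset.sum_const, Finset.card_univ, Fintype.card_fin, smul_eq_mul] at h5 h6
  nlinarith

/-- Arithmetic optimisation over the threshold. -/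
theorem tradeoff (C : Circuit F (Vars m)) (D : ℕ) (out : Fin m → Fin m → Fin C.nodes)
    (hout : ∀ i j, C.poly (out i j) = entry F m i j) (hD : ∀ i j, C.depth (out i j) ≤ D) :
    m ^ 4 ≤ 2 ^ (D + 4) * C.nonscalarCount := by
  rcases Nat.eq_zero_or_pos m with hm0 | hm0
  · subst hm0; simp
  rcases Nat.lt_or_ge m 16 with hm | hm
  · have h1 := main_ineq C D D out hout hD
    have h2 := card_light_le C D
    simp only [Nat.sub_self, pow_zero, mul_one] at h1
    have h3 : m ^ 3 ≤ (light C D).card * 2 ^ D := by omega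
    have h4 : (light C D).card * 2 ^ D ≤ C.nonscalarCount * 2 ^ D := Nat.mul_le_mul_right _ h2
    have h5 : m ^ 4 ≤ 16 * m ^ 3 := by
      have : m ^ 4 = m * m ^ 3 := by ring
      rw [this]; exact Nat.mul_le_mul_right _ hm.le
    have h6 : 2 ^ (D + 4) = 16 * 2 ^ D := by rw [pow_add]; ring
    rw [h6]; nlinarith
  · -- `4 * 2 ^ e ≤ m < 8 * 2 ^ e`
    obtain ⟨e, he1, he2⟩ : ∃ e : ℕ, 4 * 2 ^ e ≤ m ∧ m < 8 * 2 ^ e := by
      refine ⟨Nat.log 2 (m / 4), ?_, ?_⟩
      · have := Nat.pow_log_le_self 2 (x := m / 4) (by omega)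
        omega
      · have := Nat.lt_pow_succ_log_self (b := 2) (by norm_num) (m / 4)
        rw [pow_succ] at this
        omega
    rcases Nat.lt_or_ge D e with hDe | hDe
    · exfalso
      have h1 := main_ineq C D 0 out hout hD
      rw [light_zero] at h1
      simp only [Nat.sub_zero, Finset.card_empty, zero_mul, add_zero] at h1
      have h2 : 2 ^ D ≤ 2 ^ e := Nat.pow_le_pow_right (by norm_num) hDe.le
      have h3 : 2 * m ^ 2 * 2 ^ D ≤ 2 * m ^ 2 * 2 ^ e := Nat.mul_le_mul_left _ h2
      have h4 : 0 < m ^ 2 := by positivity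
      nlinarith
    · have h1 := main_ineq C D (D - e) out hout hD
      have h2 := card_light_le C (D - e)
      have h3 : D - (D - e) = e := by omega
      rw [h3] at h1
      have h4 : (light C (D - e)).card * 2 ^ (D - e) ≤ C.nonscalarCount * 2 ^ (D - e) :=
        Nat.mul_le_mul_right _ h2
      have h5 : 2 ^ D = 2 ^ (D - e) * 2 ^ e := by rw [← pow_add]; congr 1; omega
      have h6 : 4 * (2 * m ^ 2 * 2 ^ e) ≤ 2 * m ^ 3 := by
        have : 2 * m ^ 3 = 2 * m ^ 2 * m := by ring
        rw [this]
        calc 4 * (2 * m ^ 2 * 2 ^ e) = 2 * m ^ 2 * (4 * 2 ^ e) := by ring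
          _ ≤ _ := Nat.mul_le_mul_left _ he1
      have h7 : m ^ 3 ≤ 2 * (C.nonscalarCount * 2 ^ (D - e)) := by nlinarith
      calc m ^ 4 = m * m ^ 3 := by ring
        _ ≤ (8 * 2 ^ e) * (2 * (C.nonscalarCount * 2 ^ (D - e))) := Nat.mul_le_mul he2.le h7
        _ = 16 * (2 ^ (D - e) * 2 ^ e) * C.nonscalarCount := by ring
        _ = 2 ^ (D + 4) * C.nonscalarCount := by rw [← h5, pow_add]; ring

end

/-- Depth–size trade-off for matrix multiplication. Let `C` be an arithmetic circuit over a field
`F` which computes each of the `m²` entries of the product of two generic `m × m` matrices at a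
node of depth at most `D`. Then the number of its nonscalar multiplication gates is at least
`m⁴ / 2^(D+4)`; in particular, when `D ≤ (2 - ε) log₂ m` it is at least `n^(1+ε/2) / 16` with
`n = m²`. -/
theorem result {F : Type*} [Field F] (m D : ℕ) (C : Circuit F (Vars m))
    (hC : ∀ i j : Fin m, ∃ k : Fin C.nodes, C.poly k = entry F m i j ∧ C.depth k ≤ D) :
    m ^ 4 ≤ 2 ^ (D + 4) * C.nonscalarCount ∧
    C.nonscalarCount ≤ C.mulCount ∧ C.mulCount ≤ C.size ∧
    ∀ ε : ℝ, 0 ≤ ε → (D : ℝ) ≤ (2 - ε) * Real.logb 2 m →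
      ((m : ℝ) ^ 2) ^ (1 + ε / 2) / 16 ≤ C.nonscalarCount := by
  choose out hout hD using hC
  have h1 := tradeoff C D out hout hD
  refine ⟨h1, nonscalarCount_le_mulCount C, mulCount_le_size C, ?_⟩
  intro ε hε hDε
  rcases Nat.eq_zero_or_pos m with hm0 | hm0
  · subst hm0
    have : ((0 : ℕ) : ℝ) ^ 2 = 0 := by norm_num
    rw [this, Real.zero_rpow (by positivity)]
    simp
  have hm : (0 : ℝ) < m := by exact_mod_cast hm0
  have h2 : ((2 : ℝ) ^ D) ≤ (m : ℝ) ^ (2 - ε) := by
    have : ((2 : ℝ) ^ D) = (2 : ℝ) ^ (D : ℝ) := by rw [Real.rpow_natCast]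
    rw [this]
    calc (2 : ℝ) ^ (D : ℝ) ≤ (2 : ℝ) ^ ((2 - ε) * Real.logb 2 m) :=
          Real.rpow_le_rpow_of_exponent_le (by norm_num) hDε
      _ = ((2 : ℝ) ^ (Real.logb 2 m)) ^ (2 - ε) := by
          rw [← Real.rpow_mul (by norm_num)]; ring_nf
      _ = (m : ℝ) ^ (2 - ε) := by
          rw [Real.rpow_logb (by norm_num) (by norm_num) hm]
  have h3 : (m : ℝ) ^ 4 ≤ 2 ^ (D + 4) * (C.nonscalarCount : ℝ) := by exact_mod_cast h1
  have h4 : ((m : ℝ) ^ 2) ^ (1 + ε / 2) * (m : ℝ) ^ (2 - ε) = (m : ℝ) ^ 4 := by
    have : ((m : ℝ) ^ 2) = (m : ℝ) ^ (2 : ℝ) := by norm_cast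
    rw [this, ← Real.rpow_mul hm.le, ← Real.rpow_add hm]
    have : (2 * (1 + ε / 2) + (2 - ε) : ℝ) = (4 : ℕ) := by push_cast; ring
    rw [this, Real.rpow_natCast]
  have h5 : (0 : ℝ) < (m : ℝ) ^ (2 - ε) := Real.rpow_pos_of_pos hm _
  have h6 : ((m : ℝ) ^ 2) ^ (1 + ε / 2) * (m : ℝ) ^ (2 - ε) ≤
      16 * (C.nonscalarCount : ℝ) * (m : ℝ) ^ (2 - ε) := by
    rw [h4]
    calc (m : ℝ) ^ 4 ≤ 2 ^ (D + 4) * (C.nonscalarCount : ℝ) := h3
      _ = 16 * (C.nonscalarCount : ℝ) * 2 ^ D := by rw [pow_add]; ring
      _ ≤ _ := mul_le_mul_of_nonneg_left h2 (by positivity)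
  have h7 := le_of_mul_le_mul_right h6 h5
  linarith

end Pool.Agent.Results.MP_e72dc0_lc.DepthTradeoff
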