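import Pool.Agent.H522R3.SW.Bch
import Pool.Agent.H522R3.SW.Build

set_option autoImplicit false

/-!
# Matrix multiplication by circuits with a small group of symmetries

The index set `Ix r s Z` of the rows and columns consists of `r` pairs of blocks of size `s`
and a rest `Z`; `sw x` exchanges the two blocks of the pairs `v` with `x v = 1`.  Circuits have
`+` and `×` gates of unbounded fan-in; `gates C` is their number.  `Symm C out f g h` says that
the circuit is symmetric under the maps `f` of the rows, `g` of the inner indices and `h` of the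
columns.

1. There is a group `Γ` of at most `2 r` exchanges such that every circuit for `m × m` matrices
   that is symmetric under `Γ × Γ × Γ`, acting independently on the rows, the inner indices and
   the columns, has at least `r ^ 3 s ^ 2 / 16` gates, hence at least `r m ^ 2 / 256` if the
   pairs contain half of the indices.
2. There is a group of at most `32 r ^ 4` exchanges with a similar bound for its simultaneous
   action on rows, inner indices and columns.
3. Symmetry under any group of triples of exchanges costs at most a factor equal to its order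
   (and `2 m ^ 2` gates) if `2 ≠ 0`.
4. A circuit with `N₀` gates for `s × s` matrices gives one with `(2 r) ^ 3 N₀ + (2 r s) ^ 2`
   gates, symmetric under all permutations of the `2 r` blocks, independently for rows, inner
   indices and columns.
-/

namespace Pool.Agent.Results.MP_e72dc0_lc.LocalSwaps

open Pool.Agent.H522R3.SW

theorem result :
    -- independent exchanges
    (∀ r : ℕ, 1 ≤ r → ∃ Γ : AddSubgroup (Fin r → ZMod 2), Nat.card Γ ≤ 2 * r ∧
      ∀ (F : Type) [Field F] (s : ℕ) (Z G : Type) [Fintype Z] [Fintype G]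
        (C : Circ (Va (Ix r s Z)) F G) (val : G → MvPolynomial (Va (Ix r s Z)) F)
        (out : Ix r s Z → Ix r s Z → G), Computes C val out →
        (∀ x ∈ Γ, ∀ y ∈ Γ, ∀ z ∈ Γ, Symm C out (sw x) (sw y) (sw z)) →
        r ^ 3 * s ^ 2 ≤ 16 * gates C ∧
        ∀ m n : ℕ, m = Fintype.card (Ix r s Z) → m ≤ 4 * (r * s) → n = m ^ 2 →
          r * n ≤ 256 * gates C) ∧
    -- simultaneous exchanges
    (∀ r : ℕ, 1 ≤ r → ∃ Γ : AddSubgroup (Fin r → ZMod 2), Nat.card Γ ≤ 32 * r ^ 4 ∧
      ∀ (F : Type) [Field F] (s : ℕ) (Z G : Type) [Fintype Z] [Fintype G]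
        (C : Circ (Va (Ix r s Z)) F G) (val : G → MvPolynomial (Va (Ix r s Z)) F)
        (out : Ix r s Z → Ix r s Z → G), Computes C val out →
        (∀ x ∈ Γ, Symm C out (sw x) (sw x) (sw x)) →
        (r - 2) ^ 3 * s ^ 2 ≤ 512 * gates C) ∧
    -- symmetry under a small group is cheap
    (∀ (F : Type) [Field F] (r s : ℕ) (Z G₀ : Type) [Fintype Z] [Fintype G₀]
      (C₀ : Circ (Va (Ix r s Z)) F G₀) (val₀ : G₀ → MvPolynomial (Va (Ix r s Z)) F)
      (out₀ : Ix r s Z → Ix r s Z → G₀), (2 : F) ≠ 0 → Computes C₀ val₀ out₀ →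
      ∀ Δ : AddSubgroup ((Fin r → ZMod 2) × (Fin r → ZMod 2) × (Fin r → ZMod 2)),
      ∃ (G : Type) (_ : Fintype G) (C : Circ (Va (Ix r s Z)) F G)
        (val : G → MvPolynomial (Va (Ix r s Z)) F) (out : Ix r s Z → Ix r s Z → G),
        Computes C val out ∧
        (∀ x y z, (x, y, z) ∈ Δ → Symm C out (sw x) (sw y) (sw z)) ∧
        gates C = Nat.card Δ * gates C₀ + 2 * Fintype.card (Ix r s Z) ^ 2) ∧
    -- symmetric circuits from circuits for the blocks
    (∀ (F : Type) [Field F] (r s : ℕ) (G₀ : Type) [Fintype G₀]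
      (C₀ : Circ (Va (Fin s)) F G₀) (val₀ : G₀ → MvPolynomial (Va (Fin s)) F)
      (out₀ : Fin s → Fin s → G₀), Computes C₀ val₀ out₀ →
      ∃ (G : Type) (_ : Fintype G) (C : Circ (Va (Ix r s Empty)) F G)
        (val : G → MvPolynomial (Va (Ix r s Empty)) F)
        (out : Ix r s Empty → Ix r s Empty → G),
        Computes C val out ∧
        (∀ σ τ ρ : Equiv.Perm (Fin r × ZMod 2), Symm C out (bl σ) (bl τ) (bl ρ)) ∧
        (∀ x y z, Symm C out (sw x) (sw y) (sw z)) ∧
        gates C = (2 * r) ^ 3 * gates C₀ + (2 * r * s) ^ 2) := by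
  refine ⟨?_, ?_, ?_, ?_⟩
  · intro r hr
    obtain ⟨Γ, hΓ, h⟩ := prod_bound r hr
    refine ⟨Γ, hΓ, ?_⟩
    intro F _ s Z G _ _ C val out hC hsym
    have h1 := h F s Z G C val out hC hsym
    refine ⟨h1, ?_⟩
    intro m n _ hm hn
    calc r * n ≤ r * (4 * (r * s)) ^ 2 := by
          rw [hn]
          exact Nat.mul_le_mul_left _ (Nat.pow_le_pow_left hm 2)
      _ = 16 * (r ^ 3 * s ^ 2) := by ring
      _ ≤ 16 * (16 * gates C) := Nat.mul_le_mul_left _ h1
      _ = 256 * gates C := by ring
  · intro r hr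
    obtain ⟨Γ, hΓ, h⟩ := exists_rich r hr
    exact ⟨Γ, hΓ, fun F _ s Z G _ _ C val out hC hsym => diag_bound h C val out hC hsym⟩
  · intro F _ r s Z G₀ _ _ C₀ val₀ out₀ h2 hC₀ Δ
    classical
    have : Fintype Δ := Fintype.ofFinite Δ
    refine ⟨Av r s Z G₀ Δ, inferInstance, avC Δ C₀ out₀, avV Δ val₀,
      fun p q => Sum.inr (.inr (.inl (p, q))),
      ⟨avC_val Δ (card_group_ne_zero h2 Δ) hC₀, fun p q => rfl⟩,
      fun x y z hx => avC_symm Δ C₀ out₀ (x, y, z) hx, ?_⟩
    rw [gates_avC, Nat.card_eq_fintype_card]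
  · intro F _ r s G₀ _ C₀ val₀ out₀ hC₀
    refine ⟨Nd r s G₀, inferInstance, blockC C₀ out₀, blockV val₀,
      fun p q => Sum.inr (p, q), ⟨blockC_val hC₀, fun p q => rfl⟩,
      blockC_symm C₀ out₀, ?_, gates_blockC C₀ out₀⟩
    intro x y z
    obtain ⟨σ, hσ⟩ := sw_eq_bl (r := r) (s := s) (Z := Empty) x
    obtain ⟨τ, hτ⟩ := sw_eq_bl (r := r) (s := s) (Z := Empty) y
    obtain ⟨ρ, hρ⟩ := sw_eq_bl (r := r) (s := s) (Z := Empty) z
    rw [hσ, hτ, hρ]
    exact blockC_symm C₀ out₀ σ τ ρ

end Pool.Agent.Results.MP_e72dc0_lc.LocalSwaps
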