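import Pool.Agent.H870R2.LS.MM

set_option autoImplicit false

/-! # Locally symmetric networks for matrix multiplication

A network reads the entries of two matrices `X`, `Y` with rows and columns indexed by `V`. Its other
gates compute arbitrary functions of the multiset of their inputs, with values in an arbitrary set
`K` and unbounded fan-in (this includes sums, products, divisions, tests, look-ups); there is one
output gate for every entry of the product. It is symmetric on a block of five indices if every even
permutation of the block, applied simultaneously to the rows and the columns of `X`, of `Y` and of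
`X * Y`, extends to an automorphism of the network.

(1) Let a random network multiply every matrix `X` with entries `0` and `1` over a nonzero semiring
with itself correctly with probability at least `1 - ε`, and let all its members be symmetric on the
same `r` disjoint blocks. Then its expected number of gates is at least
`(1 - 2 ε) (r - 2) ^ 3 / (6 ⌊log_5 |V|⌋ + 5) ^ 3`.

(2) There is an arithmetic network (sums and products) with `|V| ^ 3 + 3 |V| ^ 2` gates, symmetric
under all permutations of the rows of `X`, of the columns of `X` and rows of `Y`, and of the columns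
of `Y`, which multiplies all matrices over any commutative semiring. -/

namespace Pool.Agent.Results.MP_e72dc0_lc.LocalSymmetry

open Pool.Agent.H526R2.LS Pool.Agent.H870R2.LS

/-- All gates which do not read an input compute the sum or the product of their inputs. -/
def Arithmetic {I R O Gt : Type} [CommSemiring R] (N : Net I R O Gt) : Prop :=
  ∀ g, N.inp g = none → (∀ m, N.F g m = m.sum) ∨ (∀ m, N.F g m = m.prod)

open Classical in
theorem result :
    (∀ (V K R : Type) [Fintype V] [Semiring R] [Nontrivial R] (enc : R → K) (dec : K → R) (r : ℕ)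
      (ι : Fin r × Fin 5 ↪ V) (Ω : Type) [Fintype Ω] (p : Ω → ℝ), (∀ ω, 0 ≤ p ω) → ∑ ω, p ω = 1 →
      ∀ (Gt : Ω → Type) [∀ ω, Fintype (Gt ω)]
        (N : ∀ ω, Net ((V × V) ⊕ (V × V)) K (V × V) (Gt ω)), (∀ ω, (N ω).MMBlocks ι) →
      ∀ ε : ℝ, 2 * ε ≤ 1 →
        (∀ X : Matrix V V R, (∀ u v, X u v = 0 ∨ X u v = 1) →
          ∑ ω with ¬ (N ω).Multiplies enc dec X X, p ω ≤ ε) →
        (1 - 2 * ε) * ((r - 2 : ℕ) : ℝ) ^ 3 ≤ (∑ ω, p ω * (Fintype.card (Gt ω) : ℝ)) *
          ((6 * Nat.log 5 (Fintype.card V) + 5 : ℕ) : ℝ) ^ 3) ∧
    (∀ (V R : Type) [Fintype V] [CommSemiring R],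
      ∃ (Gt : Type) (_ : Fintype Gt) (N : Net ((V × V) ⊕ (V × V)) R (V × V) Gt),
        Arithmetic N ∧ (∀ π ρ σ : Equiv.Perm V, N.MMSym π ρ σ) ∧
        (∀ X Y : Matrix V V R, N.Multiplies id id X Y) ∧
        Fintype.card Gt = Fintype.card V ^ 3 + 3 * Fintype.card V ^ 2) := by
  refine ⟨?_, ?_⟩
  · intro V K R _ _ _ enc dec r ι Ω _ p hp hp1 Gt _ N hsym ε hε herr
    exact mm_lower (B := Fin 5) (by rw [Fintype.card_fin]) enc dec ι p hp hp1 Gt N hsym ε hε
      (fun X hX => by convert herr X hX)
  · intro V R _ _
    refine ⟨MG V, inferInstance, mmNet V R, ?_, mmNet_sym V R, mmNet_ok V R, card_MG V⟩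
    intro g hg
    rcases g with (c | c) | s | s
    · exact absurd hg (by simp [mmNet])
    · exact absurd hg (by simp [mmNet])
    · exact Or.inr (fun m => rfl)
    · exact Or.inl (fun m => rfl)

end Pool.Agent.Results.MP_e72dc0_lc.LocalSymmetry
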