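import Mathlib
import Pool.Agent.H522R3.TW.Shared

set_option autoImplicit false

/-!
# Matrix multiplication circuits: communication between blocks of gates, treewidth, shared gates

Arithmetic circuits over an arbitrary field computing the product of two generic `m × m` matrices.
If the gates are distributed over blocks, then the blocks read many entries or there is much
communication between them.  It follows that a circuit whose gate graph has treewidth at most
`n ^ (1 - ε)`, `n = m ^ 2`, has size at least `n ^ (1 + ε / 2) / 36`, and similarly for circuits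
having few gates that are used more than once.
-/

namespace Pool.Agent.Results.MP_e72dc0_lc.Treewidth

open Pool.Agent.H522R2 Pool.Agent.H522R2.Circuit Pool.Agent.H522R3.TW

theorem result {F : Type*} [Field F] {m : ℕ} (hm : 1 ≤ m) (C : Circuit F (Vars m))
    (hC : ∀ i j, ∃ k, C.poly k = entry F m i j) :
    -- blocks of gates
    (∀ (ι : Type) [Fintype ι] (b : Fin C.nodes → ι),
      m ^ 4 ≤ 4 * ∑ β, blockA C b β * blockB C b β + 4 * m ^ 2 * ∑ β, blockIn C b β) ∧
    -- treewidth
    readCount C ≤ 2 * C.size ∧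
    (∀ t : ℕ, HasTreeDec (gateAdj C) t → m ^ 6 ≤ 320 * (t + 1) * readCount C ^ 2 ∧
      (∀ ε : ℝ, (t : ℝ) + 1 ≤ ((m : ℝ) ^ 2) ^ (1 - ε) →
        ((m : ℝ) ^ 2) ^ (1 + ε / 2) ≤ 36 * C.size) ∧
      (∀ ε : ℝ, (t : ℝ) + 1 ≤ (C.size : ℝ) ^ (1 - ε) →
        ((m : ℝ) ^ 2) ^ 3 ≤ 1280 * (C.size : ℝ) ^ (3 - ε))) ∧
    -- shared gates
    m ^ 6 ≤ 320 * (sharedCount C + 2) * readCount C ^ 2 :=
  ⟨fun _ _ b => block_bound C b hC, reads_le_size C,
    fun t hT => ⟨tree_bound C hC t hT, fun ε h => tree_bound_pow C hC t hT ε hm h,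
      fun ε h => tree_bound_size C hC t hT ε hm h⟩,
    tree_bound C hC _ (hasTreeDec_shared C)⟩

end Pool.Agent.Results.MP_e72dc0_lc.Treewidth
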